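import Pool.Agent.Q225.EqPetersenC2

/-!
# Equality testing on graphs: `f(G) < c₂(G)/2` for the Petersen graph

`Q225.EqG.cc G n` is the least number of bits of a correct protocol with a fixed schedule
(`Pool/Agent/Q225/EqDefs.lean`), `Q225.EqG.acc G n` is the least worst-case number of bits of a
correct adaptive protocol (`Pool/Agent/Q225/EqDynDefs.lean`).  For the Petersen graph `P` both
`cc P n / n` and `acc P n / n` tend to `5`, while `c₂(P) = 11`.
-/

set_option autoImplicit false

namespace Pool.Agent.Results.MP_01a55a_lc.PetersenBelowHalfC2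

open Q225.EqG Filter

/-- **Main theorem**: the Petersen graph is connected, `f(P) = 5` and `c₂(P) = 11`, so that
`f(P) < c₂(P) / 2`. -/
theorem result :
    petersen.Connected ∧
      Tendsto (fun n : ℕ => (cc petersen n : ℝ) / n) atTop (nhds 5) ∧
      Tendsto (fun n : ℕ => (acc petersen n : ℝ) / n) atTop (nhds 5) ∧
      c2 petersen = 11 := by
  refine ⟨petersen_connected, ?_, ?_, petersen_c2⟩
  · rw [← petersen_fc]; exact tendsto_fc petersen_connected
  · rw [← petersen_fc]; exact tendsto_acc petersen_connected

end Pool.Agent.Results.MP_01a55a_lc.PetersenBelowHalfC2
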